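import Pool.Agent.H58.BL.Stm3
import Pool.Agent.H695.BL.Dec

/-!
# Project BL, LOCD: coordinates of an orbit in one minimal invariant subspace
-/

set_option autoImplicit false

open Finset Module

namespace Pool.Agent.H277.BL

open Pool.Agent.H58 Pool.Agent.H58.AG Pool.Agent.H58.BL Pool.Agent.H695.BL

section
variable {E : Type*} [NormedAddCommGroup E] [InnerProductSpace ℝ E] [FiniteDimensional ℝ E]

theorem sp_comm {G : Subgroup (E ≃ₗᵢ[ℝ] E)} {W : Submodule ℝ E} (hW : Inv G W) (g : E ≃ₗᵢ[ℝ] E)
    (hg : g ∈ G) (x : E) : W.starProjection (g x) = g (W.starProjection x) := by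
  rw [Submodule.starProjection_apply, Submodule.starProjection_apply]
  exact proj_comm hW g hg x

theorem crd_inner (W : Submodule ℝ E) (x y : E) :
    dt (crd W x) (crd W y) = inner ℝ (W.starProjection x) (W.starProjection y) := by
  have h := (stdOrthonormalBasis ℝ W).sum_inner_mul_inner (W.orthogonalProjectionOnto x)
    (W.orthogonalProjectionOnto y)
  rw [Submodule.starProjection_apply, Submodule.starProjection_apply, ← Submodule.coe_inner, ← h]
  unfold dt
  refine Finset.sum_congr rfl fun i _ => ?_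
  rw [real_inner_comm]
  rfl

end

theorem t_locd : S_LOCD := by
  intro n G V hV x0
  have hd : 0 < finrank ℝ V := by
    rw [Nat.pos_iff_ne_zero, Ne, Submodule.finrank_eq_zero]
    exact hV.2.1
  by_cases h0 : V.starProjection x0 = 0
  · refine ⟨fun _ => 0, fun _ => Pi.single ⟨0, hd⟩ 1, fun g hg h hh => ⟨?_, fun _ => ?_⟩⟩
    · unfold dt
      rw [Finset.sum_eq_single ⟨0, hd⟩]
      · simp
      · intro i _ hi
        simp only []
        rw [Pi.single_eq_of_ne hi, zero_mul]
      · intro h1
        exact absurd (Finset.mem_univ _) h1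
    · rw [sp_comm hV.1 g hg, h0, map_zero, inner_zero_left, norm_zero]
      ring
  · have hc : ‖V.starProjection x0‖ ≠ 0 := norm_ne_zero_iff.2 h0
    have hdt : ∀ x y : EuclideanSpace ℝ (Fin n),
        dt (fun i => ‖V.starProjection x0‖⁻¹ * crd V x i) (fun i => ‖V.starProjection x0‖⁻¹ * crd V y i) =
          (‖V.starProjection x0‖ ^ 2)⁻¹ * inner ℝ (V.starProjection x) (V.starProjection y) := by
      intro x y
      rw [← crd_inner]
      unfold dt
      rw [Finset.mul_sum]
      refine Finset.sum_congr rfl fun i _ => ?_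
      rw [sq, mul_inv]
      ring
    refine ⟨fun _ => 0, fun x i => ‖V.starProjection x0‖⁻¹ * crd V x i, fun g hg h hh => ⟨?_, fun _ => ?_⟩⟩
    · rw [hdt, sp_comm hV.1 g hg, real_inner_self_eq_norm_sq, LinearIsometryEquiv.norm_map]
      exact inv_mul_cancel₀ (pow_ne_zero 2 hc)
    · rw [hdt, ← mul_assoc, mul_inv_cancel₀ (pow_ne_zero 2 hc), one_mul]

end Pool.Agent.H277.BL
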